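import Pool.Agent.V1171.MLZ.Pos
import Pool.Agent.V1171.MLZ.Topo

set_option autoImplicit false

/-!
The Mittag-Leffler function `E_{α,1}` does vanish on the imaginary axis for some `α ∈ (2/3, 1)`.
-/

namespace Pool.Agent.Results.MP_ff8adc_an.ImaginaryZero

open MeasureTheory Filter Topology Set V1171.MLZ

lemma ef_one {τ : ℝ} : ef 1 τ = Complex.exp (τ * Complex.I) := by
  rw [Complex.exp_eq_exp_ℂ, NormedSpace.exp_eq_tsum_div]
  unfold ef
  congr 1
  funext k
  unfold tm
  rw [Real.rpow_one, one_mul, Real.Gamma_nat_eq_factorial]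
  push_cast
  rw [div_eq_mul_inv]

lemma ef_zero {α : ℝ} (hα : 0 < α) : ef α 0 = 1 := by
  unfold ef
  rw [tsum_eq_single 0]
  · simp [tm]
  · intro k hk
    unfold tm
    rw [Real.zero_rpow hα.ne']
    simp [hk]

lemma sin_pos_aux {x : ℝ} (h1 : 2 * Real.pi < x) (h2 : x < 3 * Real.pi) : 0 < Real.sin x := by
  rw [← Real.sin_sub_two_pi]
  exact Real.sin_pos_of_pos_of_lt_pi (by linarith) (by linarith)

lemma exists_theta {α : ℝ} (hα : 0 < α) : ∃ θ : ℝ, 2 * (α * θ) = Real.pi :=
  ⟨Real.pi / (2 * α), by field_simp⟩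

lemma sin_three : Real.sin (3 * Real.pi / 4) = √2 / 2 := by
  have : 3 * Real.pi / 4 = Real.pi - Real.pi / 4 := by ring
  rw [this, Real.sin_pi_sub, Real.sin_pi_div_four]

lemma sqrt_two_bd : 1414 / 1000 < √2 ∧ √2 < 1415 / 1000 := by
  constructor
  · apply Real.lt_sqrt_of_sq_lt
    norm_num
  · rw [Real.sqrt_lt' (by norm_num)]
    norm_num

lemma sqrt_three_bd : 173 / 100 < √3 := by
  apply Real.lt_sqrt_of_sq_lt
  norm_num

lemma coef_nonneg {α : ℝ} (h1 : 2 / 3 ≤ α) (h2 : α < 1) :
    0 ≤ Real.sin (Real.pi * α) / Real.pi := by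
  have hpi := Real.pi_pos
  apply div_nonneg _ hpi.le
  apply Real.sin_nonneg_of_nonneg_of_le_pi
  · nlinarith
  · nlinarith

/-- the top edge -/
lemma top_pos {α : ℝ} (h1 : 2 / 3 ≤ α) (h2 : α ≤ 1) : 0 < (ef α 9).im := by
  have hpi3 := Real.pi_gt_d4
  have hpi4 := Real.pi_lt_d4
  rcases eq_or_lt_of_le h2 with rfl | h2
  · rw [ef_one]
    have : ((9 : ℝ) : ℂ) * Complex.I = ((9 : ℝ) : ℂ) * Complex.I := rfl
    rw [Complex.exp_ofReal_mul_I_im]
    exact sin_pos_aux (by linarith) (by linarith)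
  · obtain ⟨θ, hθ⟩ := exists_theta (by linarith : 0 < α)
    rw [ef_im_eq h1 h2 hθ (by norm_num)]
    have hb := theta_bd h1 h2 hθ
    have hs : √2 / 2 ≤ Real.sin θ := by
      rw [← sin_three, ← Real.sin_pi_sub θ, ← Real.sin_pi_sub (3 * Real.pi / 4)]
      apply Real.sin_le_sin_of_le_of_le_pi_div_two <;> linarith [hb.1, hb.2]
    have hs1 := Real.sin_le_one θ
    have h3 : 0 < Real.sin (9 * Real.sin θ) := by
      apply sin_pos_aux
      · linarith [sqrt_two_bd.1]
      · linarith
    have h4 : 0 < α⁻¹ * (Real.exp (9 * Real.cos θ) * Real.sin (9 * Real.sin θ)) := by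
      have : 0 < α := by linarith
      positivity
    have h5 := mul_nonpos_of_nonneg_of_nonpos (coef_nonneg h1 h2) (alg_nonpos h1 h2
      (by norm_num : (0 : ℝ) < 9))
    linarith

/-- the left edge -/
lemma left_pos {τ : ℝ} (h0 : 0 < τ) (h9 : τ ≤ 9) : 0 < (ef (2 / 3) τ).im := by
  have hpi3 := Real.pi_gt_d4
  have hpi4 := Real.pi_lt_d4
  have hpi := Real.pi_pos
  have h1 : (2 / 3 : ℝ) ≤ 2 / 3 := le_refl _
  have h2 : (2 / 3 : ℝ) < 1 := by norm_num
  have hθ : 2 * (2 / 3 * (3 * Real.pi / 4)) = Real.pi := by ring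
  rw [ef_im_eq h1 h2 hθ h0, sin_three]
  have hc : Real.cos (3 * Real.pi / 4) = -(√2 / 2) := by
    have : 3 * Real.pi / 4 = Real.pi - Real.pi / 4 := by ring
    rw [this, Real.cos_pi_sub, Real.cos_pi_div_four]
  rw [hc]
  have hcoef := coef_nonneg h1 h2
  have halg := alg_nonpos h1 h2 h0
  have h5 := mul_nonpos_of_nonneg_of_nonpos hcoef halg
  obtain ⟨hq1, hq2⟩ := sqrt_two_bd
  set x := τ * (√2 / 2) with hx
  have hx0 : 0 < x := by rw [hx]; positivity
  have e1 : τ * -(√2 / 2) = -x := by rw [hx]; ring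
  rw [e1]
  have hx9 : x < 3 * Real.pi := by rw [hx]; nlinarith
  rcases lt_or_ge x Real.pi with hlt | hge
  · have h3 := Real.sin_pos_of_pos_of_lt_pi hx0 hlt
    have h4 : 0 < (2 / 3 : ℝ)⁻¹ * (Real.exp (-x) * Real.sin x) := by positivity
    linarith
  · rcases lt_or_ge (2 * Real.pi) x with hgt | hle
    · have h3 := sin_pos_aux hgt hx9
      have h4 : 0 < (2 / 3 : ℝ)⁻¹ * (Real.exp (-x) * Real.sin x) := by positivity
      linarith
    · -- middle range
      have hτ4 : 4 ≤ τ := by
        by_contra hcon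
        push Not at hcon
        have : x < 4 * (√2 / 2) := by
          rw [hx]
          exact mul_lt_mul_of_pos_right hcon (by positivity)
        linarith
      have hb := alg_bd hτ4 h9
      have hsin : Real.sin (Real.pi * (2 / 3)) = √3 / 2 := by
        have : Real.pi * (2 / 3) = Real.pi - Real.pi / 3 := by ring
        rw [this, Real.sin_pi_sub, Real.sin_pi_div_three]
      have hc1 : 11 / 40 ≤ Real.sin (Real.pi * (2 / 3)) / Real.pi := by
        rw [hsin, le_div_iff₀ hpi]
        have := sqrt_three_bd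
        linarith
      have hm : Real.sin (Real.pi * (2 / 3)) / Real.pi * alg (2 / 3) τ ≤ 11 / 40 * (-(83 / 500)) := by
        nlinarith
      set u := x - Real.pi with hu
      have hu0 : 0 ≤ u := by rw [hu]; linarith
      have hsu : Real.sin x = -Real.sin u := by
        have : x = u + Real.pi := by rw [hu]; ring
        rw [this, Real.sin_add_pi]
      have hsu1 : Real.sin u ≤ u := Real.sin_le hu0
      have hexp : Real.exp (-x) = Real.exp (-Real.pi) * Real.exp (-u) := by
        rw [← Real.exp_add]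
        congr 1
        rw [hu]
        ring
      have hep : Real.exp (-Real.pi) ≤ 1 / 20 := by
        have h3 : (20 : ℝ) ≤ Real.exp Real.pi := by
          have h8 : Real.exp 3 = Real.exp 1 ^ 3 := by
            rw [← Real.exp_nat_mul]
            norm_num
          have h9 := Real.exp_one_gt_d9
          have h10 : (2.718 : ℝ) ^ 3 ≤ Real.exp 1 ^ 3 :=
            pow_le_pow_left₀ (by norm_num) (by linarith) 3
          have h11 : Real.exp 3 ≤ Real.exp Real.pi := Real.exp_le_exp.mpr (by linarith)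
          norm_num at h10
          linarith
        rw [Real.exp_neg]
        have := inv_anti₀ (by norm_num) h3
        linarith
      have heu : Real.exp (-u) * u ≤ 1 / 2 := by
        have h3 : 2 * u ≤ Real.exp u := by
          have h4 : Real.exp u = Real.exp (u / 2) ^ 2 := by
            rw [← Real.exp_nat_mul]
            push_cast
            ring_nf
          have h5 := Real.add_one_le_exp (u / 2)
          have h6 : (u / 2 + 1) ^ 2 ≤ Real.exp (u / 2) ^ 2 :=
            pow_le_pow_left₀ (by positivity) h5 2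
          rw [h4]
          nlinarith [sq_nonneg (u / 2 - 1)]
        rw [Real.exp_neg, inv_mul_le_iff₀ (Real.exp_pos u)]
        linarith
      have hmain : Real.exp (-x) * Real.sin x ≥ -(1 / 40) := by
        rw [hexp, hsu]
        have h3 : Real.exp (-u) * Real.sin u ≤ 1 / 2 :=
          (mul_le_mul_of_nonneg_left hsu1 (Real.exp_pos _).le).trans heu
        have hpos := Real.exp_pos (-Real.pi)
        have hsu0 : 0 ≤ Real.sin u :=
          Real.sin_nonneg_of_nonneg_of_le_pi hu0 (by rw [hu]; linarith)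
        have h4 : 0 ≤ Real.exp (-u) * Real.sin u := mul_nonneg (Real.exp_pos _).le hsu0
        nlinarith
      have e2 : (2 / 3 : ℝ)⁻¹ = 3 / 2 := by norm_num
      rw [e2]
      linarith

/-- `E_{α,1}` has a zero on the imaginary axis for some `α ∈ (2/3, 1)`. -/
theorem result : ∃ α t : ℝ, 2 / 3 < α ∧ α < 1 ∧ 0 < t ∧ t < 9 ∧
    HasSum (fun k : ℕ => (Complex.I * t) ^ k / Complex.Gamma (α * k + 1)) 0 := by
  have hpi3 := Real.pi_gt_d4
  have hpi4 := Real.pi_lt_d4
  obtain ⟨α, hα, τ, hτ, hz⟩ := exists_zero ef (2 / 3) 9 (by norm_num) (by linarith) (by linarith)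
    (ef_cont (by norm_num)) (fun α hα => ef_zero (by linarith [hα.1])) (fun τ _ => ef_one)
    (fun α hα => top_pos hα.1 hα.2) (fun τ hτ => left_pos hτ.1 hτ.2)
  have hα0 : 0 < α := by linarith [hα.1]
  refine ⟨α, τ ^ α, hα.1, hα.2, Real.rpow_pos_of_pos hτ.1 _, ?_, ?_⟩
  · calc τ ^ α ≤ 9 ^ α := Real.rpow_le_rpow hτ.1.le hτ.2 hα0.le
      _ < 9 ^ (1 : ℝ) := Real.rpow_lt_rpow_of_exponent_lt (by norm_num) hα.2
      _ = 9 := Real.rpow_one 9
  · have h := (ef_summable hα.1.le hα.2.le hτ.1.le).hasSum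
    have e : ∑' k : ℕ, tm k α τ = 0 := hz
    rw [e] at h
    refine h.congr_fun ?_
    intro k
    unfold tm
    have e1 : (Complex.Gamma (α * k + 1)) = ((Real.Gamma (α * k + 1) : ℝ) : ℂ) := by
      rw [← Complex.Gamma_ofReal]
      push_cast
      rfl
    rw [e1, div_eq_mul_inv, mul_comm Complex.I]
    push_cast
    rfl

end Pool.Agent.Results.MP_ff8adc_an.ImaginaryZero
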